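import Pool.Agent.Q240.SD.Stm

/-!
# Project SD (helper240), job Tg: the transform of truncated Gaussian packets
-/

set_option autoImplicit false

open Filter Topology MeasureTheory Set

namespace Pool.Agent.Q68.SD

open Pool.Agent.Y23 (TT Fa N2)
open Pool.Agent.Q240.SD

/-- the Gaussian -/
noncomputable def E (s β x : ℝ) : ℝ := Real.exp (-(x - β) ^ 2 / (2 * s))

/-- the packet, not truncated -/
noncomputable def F (s t b : ℝ) (c : ℂ) (x : ℝ) : ℂ :=
  Complex.exp (-(t * x * Complex.I)) * ((E s b x : ℂ) + c * (E s (-b) x : ℂ))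

lemma E_cont (s β : ℝ) : Continuous (E s β) := by
  unfold E
  fun_prop

lemma F_cont (s t b : ℝ) (c : ℂ) : Continuous (F s t b c) := by
  unfold F
  have := E_cont s b
  have := E_cont s (-b)
  fun_prop

lemma E_pos (s β x : ℝ) : 0 < E s β x := Real.exp_pos _

lemma norm_F_le {s t b : ℝ} {c : ℂ} (hc : ‖c‖ = 1) (x : ℝ) :
    ‖F s t b c x‖ ≤ E s b x + E s (-b) x := by
  have h1 : ‖Complex.exp (-(t * x * Complex.I))‖ = 1 := by
    rw [Complex.norm_exp]
    simp
  unfold F
  rw [norm_mul, h1, one_mul]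
  refine (norm_add_le _ _).trans ?_
  rw [norm_mul, hc, one_mul, Complex.norm_real, Complex.norm_real, Real.norm_eq_abs,
    Real.norm_eq_abs, abs_of_pos (E_pos s b x), abs_of_pos (E_pos s (-b) x)]

lemma E_sq {s : ℝ} (β x : ℝ) : E s β x ^ 2 = Real.exp (-(1 / s) * (x - β) ^ 2) := by
  unfold E
  rw [← Real.exp_nat_mul]
  congr 1
  push_cast
  by_cases hs : s = 0
  · subst hs; simp
  · field_simp

/-- the Gaussian integral -/
lemma gauss {s : ℝ} (hs : 0 < s) (β : ℝ) (z : ℂ) :
    Integrable (fun x : ℝ => (E s β x : ℂ) * Complex.exp (z * x)) ∧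
    ∫ x : ℝ, (E s β x : ℂ) * Complex.exp (z * x) =
      (Real.sqrt (2 * Real.pi * s) : ℂ) * Complex.exp (s * z ^ 2 / 2) * Complex.exp (β * z) := by
  have hsc : (s : ℂ) ≠ 0 := by exact_mod_cast hs.ne'
  have hq : (((-(1 / (2 * s)) : ℝ)) : ℂ).re < 0 := by
    rw [Complex.ofReal_re]
    have : 0 < 1 / (2 * s) := by positivity
    linarith
  have he : (fun x : ℝ => (E s β x : ℂ) * Complex.exp (z * x)) = fun x : ℝ =>
      Complex.exp (((-(1 / (2 * s)) : ℝ) : ℂ) * x ^ 2 + (z + β / s) * x + (-(β ^ 2 / (2 * s)))) := by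
    funext x
    unfold E
    rw [Complex.ofReal_exp, ← Complex.exp_add]
    congr 1
    push_cast
    field_simp
    ring
  rw [he]
  refine ⟨integrable_cexp_quadratic' hq _ _, ?_⟩
  rw [integral_cexp_quadratic hq]
  have h1 : (Real.pi : ℂ) / -((-(1 / (2 * s)) : ℝ) : ℂ) = ((2 * Real.pi * s : ℝ) : ℂ) := by
    push_cast
    field_simp
  have h2 : ((2 * Real.pi * s : ℝ) : ℂ) ^ (1 / 2 : ℂ) = (Real.sqrt (2 * Real.pi * s) : ℂ) := by
    rw [Real.sqrt_eq_rpow, Complex.ofReal_cpow (by positivity)]
    push_cast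
    rfl
  have h3 : Complex.exp (s * z ^ 2 / 2) * Complex.exp (β * z) =
      Complex.exp (-(β ^ 2 / (2 * s)) - (z + β / s) ^ 2 / (4 * ((-(1 / (2 * s)) : ℝ) : ℂ))) := by
    rw [← Complex.exp_add]
    congr 1
    push_cast
    field_simp
    ring
  rw [h1, h2, mul_assoc ((Real.sqrt (2 * Real.pi * s) : ℝ) : ℂ), h3]

lemma full {s : ℝ} (hs : 0 < s) (t b : ℝ) (c w : ℂ) :
    Integrable (fun x : ℝ => F s t b c x * Complex.exp (w * x)) ∧
    ∫ x : ℝ, F s t b c x * Complex.exp (w * x) = Mn s t b c w := by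
  obtain ⟨i1, e1⟩ := gauss hs b (w - t * Complex.I)
  obtain ⟨i2, e2⟩ := gauss hs (-b) (w - t * Complex.I)
  have he : (fun x : ℝ => F s t b c x * Complex.exp (w * x)) = fun x : ℝ =>
      (E s b x : ℂ) * Complex.exp ((w - t * Complex.I) * x) +
        c * ((E s (-b) x : ℂ) * Complex.exp ((w - t * Complex.I) * x)) := by
    funext x
    unfold F
    have : Complex.exp ((w - t * Complex.I) * x) =
        Complex.exp (-(t * x * Complex.I)) * Complex.exp (w * x) := by
      rw [← Complex.exp_add]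
      congr 1
      ring
    rw [this]
    ring
  rw [he]
  refine ⟨i1.add (i2.const_mul c), ?_⟩
  rw [integral_add i1 (i2.const_mul c), integral_const_mul, e1, e2]
  unfold Mn
  have : Complex.exp (((-b : ℝ) : ℂ) * (w - t * Complex.I)) =
      Complex.exp (-(b * (w - t * Complex.I))) := by
    congr 1
    push_cast
    ring
  rw [this]
  ring

/-- the tails -/
lemma tail {ε a β x : ℝ} (hε : 0 < ε) (hε4 : ε ≤ 1 / 4) (ha : 0 < a) (hβ : |β| ≤ (1 - 2 * ε) * a)
    (hx : a < |x|) : E (ε ^ 2 / 8 * a) β x ≤ Real.exp (-(16 * |x|)) := by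
  unfold E
  apply Real.exp_le_exp.2
  rw [neg_div, neg_le_neg_iff, le_div_iff₀ (by positivity)]
  have h1 : |x| - (1 - 2 * ε) * a ≤ |x - β| := by
    have := abs_sub_abs_le_abs_sub x β
    linarith
  have h0 : 0 ≤ |x| - (1 - 2 * ε) * a := by nlinarith
  have h2 : (|x| - (1 - 2 * ε) * a) ^ 2 ≤ (x - β) ^ 2 := by
    rw [← sq_abs (x - β)]
    exact pow_le_pow_left₀ h0 h1 2
  refine le_trans ?_ h2
  obtain ⟨y, hy⟩ : ∃ y, y = |x| - a := ⟨_, rfl⟩
  have hy0 : 0 < y := by linarith
  have hxy : |x| = a + y := by linarith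
  rw [hxy]
  have h3 : 0 ≤ ε * (1 - ε) * a * y := by
    have : 0 ≤ 1 - ε := by linarith
    positivity
  nlinarith [sq_nonneg y]

/-- the majorant of the tails -/
lemma tail_int {a : ℝ} (ha : 0 < a) :
    Integrable (fun x : ℝ => if a < |x| then 2 * Real.exp (-(15 * |x|)) else 0) ∧
    ∫ x : ℝ, (if a < |x| then 2 * Real.exp (-(15 * |x|)) else 0) ≤ Real.exp (-(15 * a)) := by
  have hset : ∀ x : ℝ, (if a < |x| then 2 * Real.exp (-(15 * |x|)) else 0) =
      (Ioi a).indicator (fun x : ℝ => 2 * Real.exp (-15 * x)) x +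
        (Iio (-a)).indicator (fun x : ℝ => 2 * Real.exp (15 * x)) x := by
    intro x
    by_cases h1 : a < x
    · have h2 : 0 < x := ha.trans h1
      rw [if_pos (by rw [abs_of_pos h2]; exact h1), indicator_of_mem (by exact h1),
        indicator_of_notMem (by simp only [mem_Iio, not_lt]; linarith), abs_of_pos h2, add_zero]
      congr 2
      ring
    · by_cases h2 : x < -a
      · have h3 : x < 0 := by linarith
        rw [if_pos (by rw [abs_of_neg h3]; linarith), indicator_of_notMem (by exact h1),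
          indicator_of_mem (by exact h2), abs_of_neg h3, zero_add]
        congr 2
        ring
      · rw [if_neg (by rw [not_lt, abs_le]; constructor <;> linarith),
          indicator_of_notMem (by exact h1), indicator_of_notMem (by exact h2), add_zero]
  have i1 : IntegrableOn (fun x : ℝ => 2 * Real.exp (-15 * x)) (Ioi a) :=
    (integrableOn_exp_mul_Ioi (by norm_num) a).const_mul 2
  have i2' : IntegrableOn (fun x : ℝ => 2 * Real.exp (15 * x)) (Iic (-a)) :=
    (integrableOn_exp_mul_Iic (by norm_num : (0 : ℝ) < 15) (-a)).const_mul 2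
  have i2 : IntegrableOn (fun x : ℝ => 2 * Real.exp (15 * x)) (Iio (-a)) :=
    i2'.mono_set Iio_subset_Iic_self
  have j1 := (integrable_indicator_iff measurableSet_Ioi).2 i1
  have j2 := (integrable_indicator_iff measurableSet_Iio).2 i2
  simp_rw [hset]
  refine ⟨j1.add j2, ?_⟩
  rw [integral_add j1 j2, integral_indicator measurableSet_Ioi, integral_indicator measurableSet_Iio,
    integral_const_mul, integral_const_mul, integral_exp_mul_Ioi (by norm_num),
    ← integral_Iic_eq_integral_Iio, integral_exp_mul_Iic (by norm_num)]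
  have e1 : (-15 : ℝ) * a = -(15 * a) := by ring
  have e2 : (15 : ℝ) * -a = -(15 * a) := by ring
  rw [e1, e2]
  have := Real.exp_pos (-(15 * a))
  linarith

theorem tg : S_Tg := by
  intro ε hε hε4
  refine ⟨1, fun a t b c ha hc hb hba => ?_⟩
  have ha0 : 0 < a := by linarith
  obtain ⟨s, hs⟩ : ∃ s : ℝ, s = ε ^ 2 / 8 * a := ⟨_, rfl⟩
  have hs0 : 0 < s := by rw [hs]; positivity
  have hb1 : |b| ≤ (1 - 2 * ε) * a := by rwa [abs_of_nonneg hb]
  have hb2 : |(-b)| ≤ (1 - 2 * ε) * a := by rwa [abs_neg, abs_of_nonneg hb]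
  obtain ⟨g, hg⟩ : ∃ g : ℝ → ℂ, g = (Icc (-a) a).indicator (F s t b c) := ⟨_, rfl⟩
  have hE1 : ∀ β x, E s β x ≤ 1 := by
    intro β x
    unfold E
    rw [Real.exp_le_one_iff, neg_div]
    have : 0 ≤ (x - β) ^ 2 / (2 * s) := by positivity
    linarith
  have hmem : MemLp g 2 volume := by
    rw [hg, memLp_indicator_iff_restrict measurableSet_Icc]
    refine MemLp.of_bound (F_cont s t b c).aestronglyMeasurable 2 (Eventually.of_forall fun x => ?_)
    refine (norm_F_le hc x).trans ?_
    linarith [hE1 b x, hE1 (-b) x]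
  have hoff : ∀ x : ℝ, a < |x| → g x = 0 := by
    intro x hx
    rw [hg, indicator_of_notMem]
    intro h
    exact absurd (abs_le.2 h) (not_le.2 hx)
  have hon : ∀ x : ℝ, ¬ a < |x| → g x = F s t b c x := by
    intro x hx
    rw [hg, indicator_of_mem]
    exact abs_le.1 (not_lt.1 hx)
  refine ⟨g, ⟨hmem, hoff⟩, ?_, fun w hw => ?_⟩
  · -- the norm
    have i0 : ∀ β : ℝ, Integrable (fun x : ℝ => Real.exp (-(1 / s) * (x - β) ^ 2)) := fun β =>
      (integrable_exp_neg_mul_sq (by positivity : 0 < 1 / s)).comp_sub_right β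
    have e0 : ∀ β : ℝ, ∫ x : ℝ, Real.exp (-(1 / s) * (x - β) ^ 2) = Real.sqrt (Real.pi * s) := by
      intro β
      have h1 := integral_sub_right_eq_self (μ := volume)
        (fun x : ℝ => Real.exp (-(1 / s) * x ^ 2)) β
      rw [h1, integral_gaussian]
      congr 1
      field_simp
    have h1 : N2 g ≤ ∫ x : ℝ, (2 * Real.exp (-(1 / s) * (x - b) ^ 2) +
        2 * Real.exp (-(1 / s) * (x - -b) ^ 2)) := by
      unfold N2
      refine integral_mono_of_nonneg (Eventually.of_forall fun x => sq_nonneg ‖g x‖)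
        (((i0 b).const_mul 2).add ((i0 (-b)).const_mul 2)) (Eventually.of_forall fun x => ?_)
      change ‖g x‖ ^ 2 ≤ 2 * Real.exp (-(1 / s) * (x - b) ^ 2) +
        2 * Real.exp (-(1 / s) * (x - -b) ^ 2)
      rw [← E_sq, ← E_sq]
      by_cases hx : a < |x|
      · rw [hoff x hx, norm_zero, zero_pow two_ne_zero]
        positivity
      · rw [hon x hx]
        have h2 := norm_F_le (s := s) (t := t) (b := b) hc x
        have h3 : ‖F s t b c x‖ ^ 2 ≤ (E s b x + E s (-b) x) ^ 2 :=
          pow_le_pow_left₀ (norm_nonneg _) h2 2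
        nlinarith [sq_nonneg (E s b x - E s (-b) x)]
    refine h1.trans ?_
    rw [integral_add ((i0 b).const_mul 2) ((i0 (-b)).const_mul 2), integral_const_mul,
      integral_const_mul, e0, e0]
    have h4 : Real.sqrt (Real.pi * s) ≤ a / 4 := by
      rw [Real.sqrt_le_left (by positivity), hs]
      have hpi := Real.pi_lt_four
      have hpi0 := Real.pi_pos
      have h5 : ε ^ 2 ≤ 1 / 16 := by nlinarith
      have h6 : Real.pi * ε ^ 2 ≤ 4 * (1 / 16) :=
        mul_le_mul hpi.le h5 (by positivity) (by norm_num)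
      have h7 : Real.pi * (ε ^ 2 / 8 * a) = (Real.pi * ε ^ 2) * (a / 8) := by ring
      rw [h7]
      nlinarith
    linarith
  · obtain ⟨iF, eF⟩ := full hs0 t b c w
    obtain ⟨iT, eT⟩ := tail_int ha0
    have hbd : ∀ x : ℝ, ‖g x * Complex.exp (w * x) - F s t b c x * Complex.exp (w * x)‖ ≤
        if a < |x| then 2 * Real.exp (-(15 * |x|)) else 0 := by
      intro x
      by_cases hx : a < |x|
      · rw [hoff x hx, if_pos hx, zero_mul, zero_sub, norm_neg, norm_mul, Complex.norm_exp]
        have h1 : ‖F s t b c x‖ ≤ 2 * Real.exp (-(16 * |x|)) := by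
          have h2 := norm_F_le (s := s) (t := t) (b := b) hc x
          have h3 := tail hε hε4 ha0 hb1 hx
          have h4 := tail hε hε4 ha0 hb2 hx
          rw [← hs] at h3 h4
          linarith
        have h5 : Real.exp (w * x).re ≤ Real.exp |x| := by
          apply Real.exp_le_exp.2
          rw [Complex.re_mul_ofReal]
          calc w.re * x ≤ |w.re * x| := le_abs_self _
            _ = |w.re| * |x| := abs_mul _ _
            _ ≤ 1 * |x| := by gcongr
            _ = |x| := one_mul _
        calc ‖F s t b c x‖ * Real.exp (w * x).re ≤ (2 * Real.exp (-(16 * |x|))) * Real.exp |x| := by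
              gcongr
          _ = 2 * Real.exp (-(15 * |x|)) := by
              rw [mul_assoc, ← Real.exp_add]
              congr 2
              ring
      · rw [hon x hx, if_neg hx, sub_self, norm_zero]
    have hmeas : AEStronglyMeasurable (fun x : ℝ => g x * Complex.exp (w * x)) volume :=
      hmem.1.mul (by fun_prop : Continuous fun x : ℝ => Complex.exp (w * x)).aestronglyMeasurable
    have iD : Integrable (fun x : ℝ => g x * Complex.exp (w * x) -
        F s t b c x * Complex.exp (w * x)) :=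
      iT.mono' (hmeas.sub iF.1) (Eventually.of_forall hbd)
    have iG : Integrable (fun x : ℝ => g x * Complex.exp (w * x)) := by
      have := iD.add iF
      refine this.congr (Eventually.of_forall fun x => ?_)
      simp
    have h1 : TT g w - Mn (ε ^ 2 / 8 * a) t b c w =
        ∫ x : ℝ, (g x * Complex.exp (w * x) - F s t b c x * Complex.exp (w * x)) := by
      rw [integral_sub iG iF, eF, ← hs]
      rfl
    rw [h1]
    exact (norm_integral_le_of_norm_le iT (Eventually.of_forall hbd)).trans eT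

end Pool.Agent.Q68.SD
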